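import Mathlib
import Pool.Graph.R_seed8.Results.MP_7db704_nt.SunCube

/-!
# The congruence for every solution of the recurrence and every truncation

For every integer solution `u` of `u(n+2) = 5 u(n+1) - 8 u(n)` and every odd prime `p`,
`∑_{k<N} u(4k) C(2k,k)^3 / (-4096)^k ≡ u(0) ∑_{k<p} C(2k,k)^3 (mod p^2)` for `p/2 < N ≤ p`, and the
sum vanishes modulo `p^2` when `p ≡ 3, 5, 6 (mod 7)`.
-/

namespace Pool.Agent.Results.MP_7db704_nt.EverySolution

open Finset Pool.Agent.V11294.M2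

/-- Binet's formula for every solution of the recurrence. -/
lemma binetU {R : Type*} [CommRing R] (w : R) (hw : w ^ 2 - w + 2 = 0) (u : ℕ → ℤ)
    (hu : ∀ n, u (n + 2) = 5 * u (n + 1) - 8 * u n) (n : ℕ) :
    (2 * w - 1) * (u n : R) =
      ((u 1 : R) - (3 - w) * u 0) * (-w ^ 3) ^ n -
      ((u 1 : R) - (w + 2) * u 0) * (-(1 - w) ^ 3) ^ n := by
  induction n using Nat.strong_induction_on with
  | _ n ih =>
    rcases n with _ | _ | n
    · simp only [pow_zero]
      ring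
    · simp only [zero_add, pow_one]
      have e1 : -w ^ 3 = w + 2 := by linear_combination (-w - 1) * hw
      have hw' : (1 - w) ^ 2 - (1 - w) + 2 = 0 := by linear_combination hw
      have e2 : -(1 - w) ^ 3 = 3 - w := by linear_combination (-(1 - w) - 1) * hw'
      rw [e1, e2]
      ring
    · rw [hu]
      push_cast
      have i1 := ih (n + 1) (by omega)
      have i0 := ih n (by omega)
      have q1 : (-w ^ 3) ^ 2 = 5 * (-w ^ 3) - 8 := by
        linear_combination (w ^ 4 + w ^ 3 - w ^ 2 + 2 * w + 4) * hw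
      have q2 : (-(1 - w) ^ 3) ^ 2 = 5 * (-(1 - w) ^ 3) - 8 := by
        have hw' : (1 - w) ^ 2 - (1 - w) + 2 = 0 := by linear_combination hw
        linear_combination ((1 - w) ^ 4 + (1 - w) ^ 3 - (1 - w) ^ 2 + 2 * (1 - w) + 4) * hw'
      rw [pow_add (-w ^ 3) n 2, pow_add (-(1 - w) ^ 3) n 2, q1, q2]
      linear_combination 5 * i1 - 8 * i0

lemma termU {R : Type*} [CommRing R] (t w : R) (hw : w ^ 2 - w + 2 = 0) (u : ℕ → ℤ)
    (hu : ∀ n, u (n + 2) = 5 * u (n + 1) - 8 * u n) (k : ℕ) :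
    (2 * w - 1) * ((u (4 * k) : R) * ((-1) ^ k * t ^ (12 * k))) =
      ((u 1 : R) - (3 - w) * u 0) * (-(w * t) ^ 12) ^ k -
      ((u 1 : R) - (w + 2) * u 0) * (-((1 - w) * t) ^ 12) ^ k := by
  have h := binetU w hw u hu (4 * k)
  have e : ∀ x : R, (-x ^ 3) ^ (4 * k) * ((-1) ^ k * t ^ (12 * k)) = (-(x * t) ^ 12) ^ k := by
    intro x
    have : t ^ (12 * k) = (t ^ 12) ^ k := by rw [pow_mul]
    rw [pow_mul, this, ← mul_pow, ← mul_pow]
    congr 1
    ring
  rw [← e, ← e]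
  linear_combination ((-1) ^ k * t ^ (12 * k)) * h

/-- Truncated sums reduce to the sum up to `n`. -/
lemma sum_range_N (p n N : ℕ) (hp : p.Prime) (hpn : p = 2 * n + 1) (h1 : p < 2 * N) (h2 : N ≤ p)
    (y : ℕ → RR p) :
    ∑ k ∈ range N, ff (RR p) k * y k = ∑ k ∈ range (n + 1), ff (RR p) k * y k := by
  have hn : n + 1 ≤ N := by omega
  rw [← sum_range_add_sum_Ico _ hn]
  rw [sum_eq_zero (s := Ico (n + 1) N), add_zero]
  intro k hk
  have hk' := Finset.mem_Ico.1 hk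
  rw [ff_zero_of p n k hp hpn (by omega) (by omega), zero_mul]

/-- The main evaluation in `(ZMod p^2)[ω]`. -/
theorem sum_eval (p n N : ℕ) (hp : p.Prime) (hpn : p = 2 * n + 1) (h7 : p ≠ 7) (h1 : p < 2 * N)
    (h2 : N ≤ p) (u : ℕ → ℤ) (hu : ∀ n, u (n + 2) = 5 * u (n + 1) - 8 * u n) :
    ∑ k ∈ range N, ff (RR p) k * ((u (4 * k) : RR p) * ((-1) ^ k * tt p ^ (12 * k))) =
      u 0 * ∑ k ∈ range (n + 1), ff (RR p) k := by
  have hx := ctx_RR p n hp hpn
  have ht := hx.ht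
  have hw := om_eq p
  have hw' : (1 - om p) ^ 2 - (1 - om p) + 2 = 0 := by linear_combination hw
  have hv : om p * ((1 - om p) * tt p) = 1 := by linear_combination ht - tt p * hw
  have hv' : (1 - om p) * (om p * tt p) = 1 := by linear_combination hv
  rw [sum_range_N p n N hp hpn h1 h2]
  have hun := isUnit_y p n hp hpn h7 _ hw
  apply hun.mul_left_cancel
  rw [mul_sum]
  have e : ∀ k ∈ range (n + 1), (2 * om p - 1) * (ff (RR p) k * ((u (4 * k) : RR p) *
      ((-1) ^ k * tt p ^ (12 * k)))) =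
      ((u 1 : RR p) - (3 - om p) * u 0) * (ff (RR p) k * (-(om p * tt p) ^ 12) ^ k) -
      ((u 1 : RR p) - (om p + 2) * u 0) * (ff (RR p) k * (-((1 - om p) * tt p) ^ 12) ^ k) := by
    intro k _
    have := termU (tt p) (om p) hw u hu k
    linear_combination ff (RR p) k * this
  rw [sum_congr rfl e, sum_sub_distrib, ← mul_sum, ← mul_sum, F_v_eq p n hp hpn h7 _ _ hw' hv',
    F_v_eq p n hp hpn h7 _ _ hw hv]
  ring

instance factSeven : Fact (Nat.Prime 7) := ⟨by norm_num⟩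

lemma leg_seven : legendreSym 7 3 = -1 ∧ legendreSym 7 5 = -1 ∧ legendreSym 7 6 = -1 := by
  refine ⟨?_, ?_, ?_⟩ <;> decide

/-- `-7` is not a square modulo `p` when `p ≡ 3, 5, 6 (mod 7)`. -/
lemma neg_seven_pow (p n : ℕ) (hp : p.Prime) (hpn : p = 2 * n + 1)
    (h : p % 7 = 3 ∨ p % 7 = 5 ∨ p % 7 = 6) : (-7 : ZMod p) ^ n = -1 := by
  have := Fact.mk hp
  have h7 : p ≠ 7 := by rintro rfl; omega
  have e1 : legendreSym p (-7) = legendreSym 7 p := by
    have a1 : legendreSym p (-7) = legendreSym p (-1) * legendreSym p 7 := by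
      rw [← legendreSym.mul]; norm_num
    have a2 := legendreSym.quadratic_reciprocity' (p := 7) (q := p) (by norm_num) (by omega)
    have a3 := legendreSym.at_neg_one (p := p) (by omega)
    have a4 := ZMod.χ₄_eq_neg_one_pow (n := p) (by omega)
    have a5 : p / 2 = n := by omega
    rw [a5] at a4
    rw [show (7 : ℕ) / 2 = 3 by norm_num, a5] at a2
    push_cast at a2
    rw [a1, a2, a3, a4, ← mul_assoc, ← pow_add]
    have : Even (n + 3 * n) := ⟨2 * n, by ring⟩
    rw [this.neg_one_pow, one_mul]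
  have e2 : legendreSym 7 p = -1 := by
    rw [legendreSym.mod 7 (p : ℤ)]
    have : ((p : ℤ) % (7 : ℕ)) = 3 ∨ ((p : ℤ) % (7 : ℕ)) = 5 ∨ ((p : ℤ) % (7 : ℕ)) = 6 := by omega
    rcases this with h | h | h <;> rw [h]
    · exact leg_seven.1
    · exact leg_seven.2.1
    · exact leg_seven.2.2
  have e3 := legendreSym.eq_pow p (-7)
  rw [e1, e2, show p / 2 = n by omega] at e3
  push_cast at e3
  exact e3.symm

theorem F_one_zero (p n : ℕ) (hp : p.Prime) (hpn : p = 2 * n + 1)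
    (h : p % 7 = 3 ∨ p % 7 = 5 ∨ p % 7 = 6) : ∑ j ∈ range (n + 1), ff (RR p) j = 0 := by
  have h7 : p ≠ 7 := by rintro rfl; omega
  have hx := ctx_RR p n hp hpn
  have hw := om_eq p
  have hw' : (1 - om p) ^ 2 - (1 - om p) + 2 = 0 := by linear_combination hw
  have hm : (p : RR p) * (-7) ^ n = -p := by
    have h1 := neg_seven_pow p n hp hpn h
    have h2 : (((-7) ^ n + 1 : ℤ) : ZMod p) = 0 := by push_cast; rw [h1]; ring
    rw [ZMod.intCast_zmod_eq_zero_iff_dvd] at h2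
    obtain ⟨k, hk⟩ := h2
    have h3 := congrArg (Int.cast (R := RR p)) hk
    push_cast at h3
    have hPP := hx.hP
    linear_combination (p : RR p) * h3 + (k : RR p) * hPP
  have h2 := P_w_pow hx hp (1 - om p) (-1) hw' (by rw [hm]; ring)
  have ht := hx.ht
  exact F_one_inert p n hp hpn h7 (om p) hw (by linear_combination h2 + p * om p * ht)

/-- The reduction of the cleared sum in `RR p`. -/
lemma cleared (p n N : ℕ) (hp : p.Prime) (hpn : p = 2 * n + 1) (h2 : N ≤ p) (u : ℕ → ℤ) :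
    ∑ k ∈ range N, (u (4 * k) : RR p) * (((2 * k).choose k : ℕ) : RR p) ^ 3 *
          ((-1) ^ k * 4096 ^ (p - 1 - k)) = 4096 ^ (p - 1) * ∑ k ∈ range N, ff (RR p) k *
          ((u (4 * k) : RR p) * ((-1) ^ k * tt p ^ (12 * k))) := by
  have ht := (ctx_RR p n hp hpn).ht
  have h4096 : (4096 : RR p) * tt p ^ 12 = 1 := by
    have : (4096 : RR p) * tt p ^ 12 = (2 * tt p) ^ 12 := by
      rw [mul_pow]; norm_num
    rw [this, ht, one_pow]
  rw [mul_sum]
  refine sum_congr rfl fun k hk => ?_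
  have hk' : k ≤ p - 1 := by have := mem_range.1 hk; omega
  have e1 : (4096 : RR p) ^ (p - 1) = 4096 ^ (p - 1 - k) * 4096 ^ k := by
    rw [← pow_add]; congr 1; omega
  have e5 : (4096 : RR p) ^ k * tt p ^ (12 * k) = 1 := by
    rw [pow_mul, ← mul_pow, h4096, one_pow]
  unfold ff cb
  rw [Nat.centralBinom_eq_two_mul_choose, e1]
  linear_combination (-((u (4 * k) : RR p) * (((2 * k).choose k : ℕ) : RR p) ^ 3 *
    ((-1) ^ k * 4096 ^ (p - 1 - k)))) * e5

lemma clear_rat (p N : ℕ) (h2 : N ≤ p) (u : ℕ → ℤ) :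
    (4096 : ℚ) ^ (p - 1) * ∑ k ∈ range N,
      (u (4 * k) : ℚ) * ((2 * k).choose k : ℚ) ^ 3 / (-4096 : ℚ) ^ k =
    ∑ k ∈ range N, (u (4 * k) : ℚ) * ((2 * k).choose k : ℚ) ^ 3 *
      ((-1) ^ k * 4096 ^ (p - 1 - k)) := by
  rw [mul_sum]
  refine sum_congr rfl fun k hk => ?_
  have hk' : k ≤ p - 1 := by have := mem_range.1 hk; omega
  have e1 : (4096 : ℚ) ^ (p - 1) = 4096 ^ (p - 1 - k) * 4096 ^ k := by
    rw [← pow_add]; congr 1; omega
  have e2 : (-4096 : ℚ) ^ k = (-1) ^ k * 4096 ^ k := by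
    rw [← mul_pow]; norm_num
  have e3 : ((-1 : ℚ)) ^ k * (-1) ^ k = 1 := by rw [← mul_pow]; norm_num
  have e4 : ((-1 : ℚ)) ^ k ≠ 0 := pow_ne_zero _ (by norm_num)
  rw [e1, e2]
  field_simp
  linear_combination (-(u (4 * k) : ℚ) * ((2 * k).choose k : ℚ) ^ 3) * e3

lemma cop (p : ℕ) (hp : p.Prime) (hodd : p ≠ 2) : Nat.Coprime p (4096 ^ (p - 1)) := by
  apply Nat.Coprime.pow_right
  have : (4096 : ℕ) = 2 ^ 12 := by norm_num
  rw [this]
  apply Nat.Coprime.pow_right
  exact (Nat.coprime_primes hp Nat.prime_two).2 hodd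

/-- For every integer solution `u` of `u(n+2) = 5 u(n+1) - 8 u(n)`, every odd prime `p` and every
`N` with `p/2 < N ≤ p`:
`∑_{k<N} u(4k) C(2k,k)^3 / (-4096)^k ≡ u(0) ∑_{k<p} C(2k,k)^3 (mod p^2)`, and both sides are zero
modulo `p^2` when `p ≡ 3, 5, 6 (mod 7)`. -/
theorem result (u : ℕ → ℤ) (hu : ∀ n, u (n + 2) = 5 * u (n + 1) - 8 * u n) (p : ℕ)
    (hp : p.Prime) (hodd : p ≠ 2) (N : ℕ) (h1 : p < 2 * N) (h2 : N ≤ p) :
    (p : ℤ) ^ 2 ∣ (∑ k ∈ range N,
        (u (4 * k) : ℚ) * ((2 * k).choose k : ℚ) ^ 3 / (-4096 : ℚ) ^ k -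
      (u 0 : ℚ) * ∑ k ∈ range p, ((2 * k).choose k : ℚ) ^ 3).num ∧
    (p % 7 = 3 ∨ p % 7 = 5 ∨ p % 7 = 6 → (p : ℤ) ^ 2 ∣ (∑ k ∈ range N,
        (u (4 * k) : ℚ) * ((2 * k).choose k : ℚ) ^ 3 / (-4096 : ℚ) ^ k).num) := by
  obtain ⟨n, hn⟩ : Odd p := hp.odd_of_ne_two hodd
  constructor
  · refine num_dvd_sq p (4096 ^ (p - 1)) _ (∑ k ∈ range N, u (4 * k) *
      ((2 * k).choose k : ℤ) ^ 3 * ((-1) ^ k * 4096 ^ (p - 1 - k)) -
      u 0 * 4096 ^ (p - 1) * ∑ k ∈ range p, ((2 * k).choose k : ℤ) ^ 3) ?_ (cop p hp hodd) ?_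
    · have := clear_rat p N h2 u
      push_cast
      linear_combination this
    · by_cases h7 : p = 7
      · subst h7
        have u4 : u 2 = 5 * u 1 - 8 * u 0 := hu 0
        have u3 : u 3 = 5 * u 2 - 8 * u 1 := hu 1
        have u4' : u 4 = 5 * u 3 - 8 * u 2 := hu 2
        have u5 : u 5 = 5 * u 4 - 8 * u 3 := hu 3
        have u6 : u 6 = 5 * u 5 - 8 * u 4 := hu 4
        have u7 : u 7 = 5 * u 6 - 8 * u 5 := hu 5
        have u8 : u 8 = 5 * u 7 - 8 * u 6 := hu 6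
        have u9 : u 9 = 5 * u 8 - 8 * u 7 := hu 7
        have u10 : u 10 = 5 * u 9 - 8 * u 8 := hu 8
        have u11 : u 11 = 5 * u 10 - 8 * u 9 := hu 9
        have u12 : u 12 = 5 * u 11 - 8 * u 10 := hu 10
        interval_cases N <;>
        · simp only [sum_range_succ, sum_range_zero]
          norm_num [Nat.choose]
          omega
      · apply intCast_RR_eq_zero
        have hs := sum_eval p n N hp hn h7 h1 h2 u hu
        have hc := cleared p n N hp hn h2 u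
        have hf := sum_range_p p n hp hn (fun _ => 1)
        simp only [mul_one] at hf
        have hf' : ∑ k ∈ range p, (((2 * k).choose k : ℕ) : RR p) ^ 3 =
            ∑ k ∈ range (n + 1), ff (RR p) k := by
          rw [← hf]
          refine sum_congr rfl fun k _ => ?_
          unfold ff cb
          rw [Nat.centralBinom_eq_two_mul_choose]
        push_cast
        rw [hc, hf', hs]
        ring
  · intro h
    have h7 : p ≠ 7 := by rintro rfl; omega
    refine num_dvd_sq p (4096 ^ (p - 1)) _ (∑ k ∈ range N, u (4 * k) *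
      ((2 * k).choose k : ℤ) ^ 3 * ((-1) ^ k * 4096 ^ (p - 1 - k))) ?_ (cop p hp hodd) ?_
    · have := clear_rat p N h2 u
      push_cast
      exact this
    · apply intCast_RR_eq_zero
      have hs := sum_eval p n N hp hn h7 h1 h2 u hu
      have hc := cleared p n N hp hn h2 u
      push_cast
      rw [hc, hs, F_one_zero p n hp hn h, mul_zero, mul_zero]

end Pool.Agent.Results.MP_7db704_nt.EverySolution
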